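import Pool.Agent.Q16.Semitop.Example

/-!
# An open homomorphism followed by a semitopological isomorphism need not be semitopological
-/

open Topology

universe v

namespace Pool.Agent.Results.MP_c09033_al.NotSemitopological

/-- A continuous surjective homomorphism `f : G → H` of topological groups is semitopological: there
are a topological group `E` in which `G` is a normal subgroup carrying the induced topology (via
the injective homomorphism `ι`), and an open continuous homomorphism `F : E → H` extending `f`.
The universe of `E` is a parameter. -/
def IsSemitopological {G H : Type} [Group G] [TopologicalSpace G] [Group H] [TopologicalSpace H]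
    (f : G →* H) : Prop :=
  Continuous f ∧ Function.Surjective f ∧
  ∃ (E : Type v) (_ : Group E) (_ : TopologicalSpace E) (_ : IsTopologicalGroup E)
    (ι : G →* E) (F : E →* H),
    Function.Injective ι ∧ ι.range.Normal ∧ IsInducing ι ∧ Continuous F ∧ IsOpenMap F ∧
      ∀ g, F (ι g) = f g

/-- There are topological groups `G`, `K` (discrete) and `H` (Hausdorff), an open continuous
surjective homomorphism `f₁ : G → K` and a semitopological isomorphism `f₂ : K → H` such that
`f₂ ∘ f₁` is not semitopological (for extensions `E` in any universe `v`). -/
theorem result :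
    ∃ (G K H : Type) (_ : Group G) (_ : TopologicalSpace G) (_ : IsTopologicalGroup G)
      (_ : DiscreteTopology G)
      (_ : Group K) (_ : TopologicalSpace K) (_ : IsTopologicalGroup K) (_ : DiscreteTopology K)
      (_ : Group H) (_ : TopologicalSpace H) (_ : IsTopologicalGroup H) (_ : T2Space H)
      (f₁ : G →* K) (f₂ : K →* H),
      Continuous f₁ ∧ IsOpenMap f₁ ∧ Function.Surjective f₁ ∧
      Function.Bijective f₂ ∧ IsSemitopological.{0} f₂ ∧
      ¬ IsSemitopological.{v} (f₂.comp f₁) := by
  refine ⟨Q16.Semitop.G, Q16.Semitop.K, Q16.Semitop.H, inferInstance, inferInstance,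
    inferInstance, inferInstance, inferInstance, inferInstance, inferInstance, inferInstance,
    inferInstance, inferInstance, inferInstance, inferInstance, Q16.Semitop.f1, Q16.Semitop.f2,
    Q16.Semitop.f1_continuous, Q16.Semitop.f1_open, Q16.Semitop.f1_surjective,
    Q16.Semitop.f2_bijective, ?_, ?_⟩
  · exact ⟨Q16.Semitop.f2_continuous, Q16.Semitop.f2_bijective.2, Q16.Semitop.KK, inferInstance,
      inferInstance, inferInstance, Q16.Semitop.ιK, Q16.Semitop.FK, Q16.Semitop.ιK_injective,
      Q16.Semitop.ιK_normal, Q16.Semitop.ιK_inducing, Q16.Semitop.FK_continuous,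
      Q16.Semitop.FK_open, fun _ => rfl⟩
  · rintro ⟨_, _, E, _, _, _, ι, F, hinj, hnorm, hind, _, hopen, hF⟩
    exact Q16.Semitop.not_semitop E ι F hinj hnorm hind hopen hF

end Pool.Agent.Results.MP_c09033_al.NotSemitopological
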